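import Pool.Agent.R804.PSchur.Union

/-!
# `n^(-1/11)` is not a threshold for `[n]_p` to be product-Schur (MP_63285e_co, Q1, disproof)

We exhibit a family of 22 products which is product-Schur (every 2-colouring has a monochromatic
solution of `x y = z`) and which appears in the binomial random set `[n]_p` asymptotically almost
surely as soon as `p ≥ n^(-1/10+ε)`.
-/

set_option autoImplicit false

open Finset Filter Topology Asymptotics

namespace Pool.Agent.Results.MP_63285e_co.NotThreshold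

open Pool.Agent.R804.PSchur

open Classical in
/-- The probability that the binomial random subset `[n]_p` of `[n] = {1, …, n}` has the
property `Q`. -/
noncomputable def prob (n : ℕ) (p : ℝ) (Q : Finset ℕ → Prop) : ℝ :=
  ∑ A ∈ (Finset.Icc 1 n).powerset.filter Q, p ^ A.card * (1 - p) ^ (n - A.card)

/-- `pstar` is a threshold for `[n]_p` to be product-Schur: a.a.s. it is when `p = ω(pstar)` and
a.a.s. it is not when `p = o(pstar)`. -/
def IsThreshold (pstar : ℕ → ℝ) : Prop :=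
  ∀ p : ℕ → ℝ, (∀ n, 0 ≤ p n ∧ p n ≤ 1) →
    (pstar =o[atTop] p → Tendsto (fun n => prob n (p n) ProductSchur) atTop (𝓝 1)) ∧
    (p =o[atTop] pstar → Tendsto (fun n => prob n (p n) ProductSchur) atTop (𝓝 0))

open Classical in
theorem prob_eq (n : ℕ) (p : ℝ) (Q : Finset ℕ → Prop) :
    prob n p Q = Ex (Finset.Icc 1 n) p (fun A => if Q A then 1 else 0) := by
  unfold prob Ex
  rw [Finset.sum_filter]
  refine Finset.sum_congr rfl fun A _ => ?_
  rw [Nat.card_Icc, Nat.add_sub_cancel]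
  by_cases h : Q A <;> simp [h]

theorem prob_le_one {n : ℕ} {p : ℝ} (h0 : 0 ≤ p) (h1 : p ≤ 1) (Q : Finset ℕ → Prop) :
    prob n p Q ≤ 1 := by
  classical
  rw [prob_eq]
  refine (Ex_mono h0 h1 (G := fun _ => 1) fun A _ => ?_).trans (Ex_one _ _).le
  split_ifs <;> norm_num

theorem prob_ge {n s : ℕ} {p : ℝ} (h0 : 0 ≤ p) (h1 : p ≤ 1) (hsp : 1 ≤ (s : ℝ) * p)
    (hsn : s ^ 10 ≤ n) :
    1 - 6 * (s : ℝ) ^ 8 * Real.exp (-((s : ℝ) * p / 25)) ≤ prob n p ProductSchur := by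
  classical
  have h2 := Ex_tot_le h0 h1 hsp hsn
  have h3 : Ex (Finset.Icc 1 n) p (fun _ => 1)
      ≤ Ex (Finset.Icc 1 n) p (fun A => (if ProductSchur A then 1 else 0) + tot s A) := by
    refine Ex_mono h0 h1 fun A _ => ?_
    by_cases h : ProductSchur A
    · rw [if_pos h]
      have : 0 ≤ tot s A := by
        unfold tot
        refine add_nonneg (bi_nonneg _ _ _) (add_nonneg (Finset.sum_nonneg fun _ _ =>
          bi_nonneg _ _ _) (add_nonneg (Finset.sum_nonneg fun _ _ => Finset.sum_nonneg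
          fun _ _ => add_nonneg (add_nonneg (bi_nonneg _ _ _) (bi_nonneg _ _ _))
          (bi_nonneg _ _ _)) (Finset.sum_nonneg fun _ _ => Finset.sum_nonneg
          fun _ _ => Finset.sum_nonneg fun _ _ => bi_nonneg _ _ _)))
      linarith
    · rw [if_neg h]
      have := tot_ge_one (s := s) h
      linarith
  rw [Ex_one, Ex_add, ← prob_eq] at h3
  have h4 : Ex (Finset.Icc 1 n) p (fun A => tot s A) = Ex (Finset.Icc 1 n) p (tot s) := rfl
  rw [h4] at h3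
  linarith

theorem tendsto_one {ε : ℝ} (hε : 0 < ε) {p : ℕ → ℝ} (hp : ∀ n, 0 ≤ p n ∧ p n ≤ 1)
    (hpn : ∀ᶠ n : ℕ in atTop, (n : ℝ) ^ (-(1 / 10) + ε) ≤ p n) :
    Tendsto (fun n => prob n (p n) ProductSchur) atTop (𝓝 1) := by
  have hlim : Tendsto (fun n : ℕ => 1 - 6 * ((n : ℝ) ^ (4 / 5 : ℝ) *
      Real.exp (-(1 / 50) * (n : ℝ) ^ ε))) atTop (𝓝 1) := by
    have h1 := tendsto_rpow_mul_exp_neg_mul_atTop_nhds_zero ((4 / 5) / ε) (1 / 50) (by norm_num)
    have h2 : Tendsto (fun n : ℕ => (n : ℝ) ^ ε) atTop atTop :=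
      (tendsto_rpow_atTop hε).comp tendsto_natCast_atTop_atTop
    have h3 := h1.comp h2
    have h4 : (fun n : ℕ => (n : ℝ) ^ (4 / 5 : ℝ) * Real.exp (-(1 / 50) * (n : ℝ) ^ ε))
        = (fun x : ℝ => x ^ ((4 / 5) / ε) * Real.exp (-(1 / 50) * x)) ∘
          (fun n : ℕ => (n : ℝ) ^ ε) := by
      funext n
      simp only [Function.comp]
      rw [← Real.rpow_mul (Nat.cast_nonneg n), mul_div_cancel₀ _ hε.ne']
    rw [← h4] at h3
    have h5 := (h3.const_mul 6).const_sub 1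
    simpa using h5
  have hbig : ∀ᶠ n : ℕ in atTop, (2 : ℝ) ≤ (n : ℝ) ^ (1 / 10 : ℝ) :=
    ((tendsto_rpow_atTop (by norm_num : (0 : ℝ) < 1 / 10)).comp
      tendsto_natCast_atTop_atTop).eventually_ge_atTop 2
  have hbig2 : ∀ᶠ n : ℕ in atTop, (2 : ℝ) ≤ (n : ℝ) ^ ε :=
    ((tendsto_rpow_atTop hε).comp tendsto_natCast_atTop_atTop).eventually_ge_atTop 2
  refine tendsto_of_tendsto_of_tendsto_of_le_of_le' hlim tendsto_const_nhds ?_ ?_
  · filter_upwards [hpn, hbig, hbig2, eventually_gt_atTop 0] with n h1 h2 h3 hn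
    have hn0 : (0 : ℝ) < n := by exact_mod_cast hn
    set s : ℕ := ⌊(n : ℝ) ^ (1 / 10 : ℝ)⌋₊ with hs
    have hsle : (s : ℝ) ≤ (n : ℝ) ^ (1 / 10 : ℝ) := Nat.floor_le (by positivity)
    have hsge : (n : ℝ) ^ (1 / 10 : ℝ) / 2 ≤ s := by
      have := Nat.lt_floor_add_one ((n : ℝ) ^ (1 / 10 : ℝ))
      rw [← hs] at this
      linarith
    have hs10 : s ^ 10 ≤ n := by
      have h4 : (s : ℝ) ^ 10 ≤ ((n : ℝ) ^ (1 / 10 : ℝ)) ^ 10 :=
        pow_le_pow_left₀ (Nat.cast_nonneg s) hsle 10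
      have h5 : ((n : ℝ) ^ (1 / 10 : ℝ)) ^ 10 = n := by
        rw [← Real.rpow_natCast, ← Real.rpow_mul hn0.le]
        norm_num
      rw [h5] at h4
      exact_mod_cast h4
    have hsp : (n : ℝ) ^ ε / 2 ≤ (s : ℝ) * p n := by
      calc (n : ℝ) ^ ε / 2 = ((n : ℝ) ^ (1 / 10 : ℝ) / 2) * (n : ℝ) ^ (-(1 / 10) + ε) := by
            rw [div_mul_eq_mul_div, ← Real.rpow_add hn0]
            congr 2
            ring
        _ ≤ (s : ℝ) * p n := mul_le_mul hsge h1 (by positivity) (Nat.cast_nonneg s)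
    have h6 := prob_ge (hp n).1 (hp n).2 (by linarith) hs10
    have h7 : 6 * (s : ℝ) ^ 8 * Real.exp (-((s : ℝ) * p n / 25))
        ≤ 6 * ((n : ℝ) ^ (4 / 5 : ℝ) * Real.exp (-(1 / 50) * (n : ℝ) ^ ε)) := by
      have h8 : (s : ℝ) ^ 8 ≤ (n : ℝ) ^ (4 / 5 : ℝ) := by
        calc (s : ℝ) ^ 8 ≤ ((n : ℝ) ^ (1 / 10 : ℝ)) ^ 8 :=
              pow_le_pow_left₀ (Nat.cast_nonneg s) hsle 8
          _ = (n : ℝ) ^ (4 / 5 : ℝ) := by
              rw [← Real.rpow_natCast, ← Real.rpow_mul hn0.le]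
              norm_num
      have h9 : Real.exp (-((s : ℝ) * p n / 25)) ≤ Real.exp (-(1 / 50) * (n : ℝ) ^ ε) := by
        apply Real.exp_le_exp.mpr
        linarith
      rw [mul_assoc]
      refine mul_le_mul_of_nonneg_left ?_ (by norm_num)
      exact mul_le_mul h8 h9 (Real.exp_pos _).le (by positivity)
    linarith
  · exact Eventually.of_forall fun n => prob_le_one (hp n).1 (hp n).2 _

/-- **Main theorem.** (1) For every `ε > 0`, if `n^(-1/10+ε) ≤ p(n) ≤ 1` for all large `n`, then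
`[n]_p` is a.a.s. product-Schur. (2) There is `p = o(n^(-1/11))` for which `[n]_p` is a.a.s.
product-Schur. (3) `n^(-1/11)` is not a threshold for `[n]_p` to be product-Schur. -/
theorem result :
    (∀ ε : ℝ, 0 < ε → ∀ p : ℕ → ℝ, (∀ n, 0 ≤ p n ∧ p n ≤ 1) →
      (∀ᶠ n : ℕ in atTop, (n : ℝ) ^ (-(1 / 10) + ε) ≤ p n) →
      Tendsto (fun n => prob n (p n) ProductSchur) atTop (𝓝 1)) ∧
    (∃ p : ℕ → ℝ, (∀ n, 0 ≤ p n ∧ p n ≤ 1) ∧
      (p =o[atTop] fun n : ℕ => (n : ℝ) ^ (-(1 / 11) : ℝ)) ∧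
      Tendsto (fun n => prob n (p n) ProductSchur) atTop (𝓝 1)) ∧
    ¬ IsThreshold (fun n : ℕ => (n : ℝ) ^ (-(1 / 11) : ℝ)) := by
  have hA : ∀ ε : ℝ, 0 < ε → ∀ p : ℕ → ℝ, (∀ n, 0 ≤ p n ∧ p n ≤ 1) →
      (∀ᶠ n : ℕ in atTop, (n : ℝ) ^ (-(1 / 10) + ε) ≤ p n) →
      Tendsto (fun n => prob n (p n) ProductSchur) atTop (𝓝 1) :=
    fun ε hε p hp hpn => tendsto_one hε hp hpn
  have hB : ∃ p : ℕ → ℝ, (∀ n, 0 ≤ p n ∧ p n ≤ 1) ∧
      (p =o[atTop] fun n : ℕ => (n : ℝ) ^ (-(1 / 11) : ℝ)) ∧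
      Tendsto (fun n => prob n (p n) ProductSchur) atTop (𝓝 1) := by
    have hp01 : ∀ n : ℕ, 0 ≤ (n : ℝ) ^ (-(2 / 21) : ℝ) ∧ (n : ℝ) ^ (-(2 / 21) : ℝ) ≤ 1 := by
      intro n
      refine ⟨Real.rpow_nonneg (Nat.cast_nonneg n) _, ?_⟩
      rcases Nat.eq_zero_or_pos n with rfl | hn
      · rw [Nat.cast_zero, Real.zero_rpow (by norm_num)]
        norm_num
      · exact Real.rpow_le_one_of_one_le_of_nonpos (by exact_mod_cast hn) (by norm_num)
    refine ⟨fun n => (n : ℝ) ^ (-(2 / 21) : ℝ), hp01, ?_, ?_⟩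
    · have h1 : Tendsto (fun n : ℕ => (n : ℝ) ^ (-(1 / 231) : ℝ)) atTop (𝓝 0) :=
        (tendsto_rpow_neg_atTop (by norm_num : (0 : ℝ) < 1 / 231)).comp
          tendsto_natCast_atTop_atTop
      rw [isLittleO_iff_tendsto']
      · refine h1.congr' ?_
        filter_upwards [eventually_gt_atTop 0] with n hn
        have hn0 : (0 : ℝ) < n := by exact_mod_cast hn
        rw [← Real.rpow_sub hn0]
        norm_num
      · filter_upwards [eventually_gt_atTop 0] with n hn h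
        have hn0 : (0 : ℝ) < n := by exact_mod_cast hn
        exact absurd h (Real.rpow_pos_of_pos hn0 _).ne'
    · refine hA (1 / 210) (by norm_num) _ hp01 (Eventually.of_forall fun n => ?_)
      norm_num
  refine ⟨hA, hB, ?_⟩
  intro hT
  obtain ⟨p, hp, ho, h1⟩ := hB
  have h0 := (hT p hp).2 ho
  exact zero_ne_one (tendsto_nhds_unique h0 h1)

end Pool.Agent.Results.MP_63285e_co.NotThreshold
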